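import Pool.Agent.H6.AC.Rsc
import Pool.Agent.H16.LE.Idx

/-!
# The spaces of the nodes of a cone

As `cone_index` of `H6/AC/Rsc`, with the numbers of the elements of the spaces in the place of the indices.
-/

set_option autoImplicit false
set_option linter.unusedSectionVars false

namespace Pool.Agent.H63.TC

open Pool.Agent.H42.CS (Ax Atom Gate Circuit)
open Pool.Agent.H16.LE (Img stN card_Vs_rel)
open Pool.Agent.H6.AC (Cone rstC rstC_img rstC_out)
open Pool.Agent.H79.CQ (Vs Vs_anti Vs_top)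

variable {Rel : ℕ → Type} {P : Type}

/-- every node of the cone is below one member of `A` -/
private theorem cone_one {C : Circuit Rel P} {A : Set C.N} {a : C.N} (h : Cone C A a) :
    ∃ b ∈ A, Cone C {b} a := by
  induction h with
  | @mem a ha => exact ⟨a, ha, Cone.mem rfl⟩
  | child h hx ih =>
    obtain ⟨b, hb, hc⟩ := ih
    exact ⟨b, hb, Cone.child hc hx⟩

/-- a node below `b` has an image if `b` is invariant -/
private theorem cone_img {C : Circuit Rel P} {b : C.N} {g : P → P} (hb : Img C g b b) {a : C.N}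
    (ha : Cone C {b} a) : ∃ c, Img C g a c := by
  induction ha with
  | @mem a ha =>
    have h1 : a = b := ha
    exact ⟨b, by rw [h1]; exact hb⟩
  | @child a x ha hx ih =>
    obtain ⟨c, hac⟩ := ih
    rcases hga : C.gate a with v | S | ⟨B, S⟩
    · rw [hga] at hx
      exact absurd hx (Set.notMem_empty x)
    · rw [hga] at hx
      obtain ⟨S', h1, β, h2, h3, h4⟩ := H16.LE.img_and hac hga
      exact ⟨(β x).node, h4 x hx⟩
    · rw [hga] at hx
      obtain ⟨S', h1, β, h2, h3, h4⟩ := H16.LE.img_sym hac hga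
      exact ⟨(β x).node, h4 x hx⟩

private theorem cone_idx {C : Circuit Rel P} {G : Type} [Group G] [Finite G]
    (ρ : G →* Equiv.Perm P) {b : C.N} {H : Subgroup G} (hH : ∀ g ∈ H, Img C (ρ g) b b) {a : C.N}
    (ha : Cone C {b} a) : (H ⊓ stN C ρ a).relIndex H ≤ Nat.card C.N := by
  classical
  have h1 : ∀ g : H, ∃ c, Img C (ρ (g : G)) a c := fun g => cone_img (hH g g.2) ha
  choose φ hφ using h1
  show ((H ⊓ stN C ρ a).subgroupOf H).index ≤ _
  have h2 : ∀ g h : H, φ g = φ h → g⁻¹ * h ∈ (H ⊓ stN C ρ a).subgroupOf H := by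
    intro g h he
    have h3 := hφ h
    rw [← he] at h3
    have h4 := H16.LE.img_mul C ρ h3 (H16.LE.img_inv C ρ (hφ g))
    rw [Subgroup.mem_subgroupOf]
    exact ⟨(g⁻¹ * h).2, h4⟩
  let ψ : H ⧸ (H ⊓ stN C ρ a).subgroupOf H → C.N := fun q => φ q.out
  have hψ : Function.Injective ψ := by
    intro q q' he
    have h3 := h2 _ _ he
    have h4 : (QuotientGroup.mk q.out : H ⧸ (H ⊓ stN C ρ a).subgroupOf H) = QuotientGroup.mk q'.out :=
      QuotientGroup.eq.2 h3
    rw [← QuotientGroup.out_eq' q, ← QuotientGroup.out_eq' q']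
    exact h4
  exact Nat.card_le_card_of_injective ψ hψ

/-- **The spaces of the nodes below a set of symmetric nodes are small.** -/
theorem cone_card {p : ℕ} [hp : Fact p.Prime] {K G : Type} [Fintype K] [Group G] [Finite G]
    {C : Circuit Rel P} {A : Set C.N} (ρ : G →* Equiv.Perm P) {pr : G → K → ZMod p}
    (hm : ∀ g h, pr (g * h) = pr g + pr h) (ho : Function.Surjective pr) {B : ℕ} (hB : 1 ≤ B)
    (hA : ∀ a ∈ A, ∃ H : Subgroup G, Nat.card (Vs pr H) ≤ B ∧ ∀ g ∈ H, Img C (ρ g) a a) (a : C.N) :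
    Nat.card (Vs pr (stN (rstC C A) ρ a)) ≤ B * Nat.card C.N := by
  have hfin : Finite (K → ZMod p) := inferInstance
  have hne : Nonempty C.N := ⟨a⟩
  have hc : 1 ≤ Nat.card C.N := Nat.card_pos
  by_cases ha : Cone C A a
  · obtain ⟨b, hb, hab⟩ := cone_one ha
    obtain ⟨H, hH1, hH2⟩ := hA b hb
    have h1 : H ⊓ stN C ρ a ≤ stN (rstC C A) ρ a := by
      intro g hg
      exact (rstC_img ha ha).2 hg.2
    have h2 : Vs pr (stN (rstC C A) ρ a) ≤ Vs pr (H ⊓ stN C ρ a) := Vs_anti h1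
    have h3 : Nat.card (Vs pr (stN (rstC C A) ρ a)) ≤ Nat.card (Vs pr (H ⊓ stN C ρ a)) :=
      Nat.card_le_card_of_injective (Submodule.inclusion h2) (Submodule.inclusion_injective h2)
    calc _ ≤ Nat.card (Vs pr (H ⊓ stN C ρ a)) := h3
      _ ≤ (H ⊓ stN C ρ a).relIndex H * Nat.card (Vs pr H) :=
          card_Vs_rel hm (inf_le_left : H ⊓ stN C ρ a ≤ H)
      _ ≤ Nat.card C.N * B := Nat.mul_le_mul (cone_idx ρ hH2 hab) hH1
      _ = B * Nat.card C.N := mul_comm _ _
  · rw [rstC_out ρ ha, Vs_top ho]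
    have h2 : Nat.card (⊥ : Submodule (ZMod p) (K → ZMod p)) = 1 := Nat.card_unique
    rw [h2]
    exact Nat.mul_pos hB hc

end Pool.Agent.H63.TC
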