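import Pool.Agent.H16.TP.Defs

/-!
# Bounded depth over partially symmetric formulas with counting

Propositional formulas are given by the nodes of a finite circuit with conjunctions and symmetric gates
`sym A X` (the number of true members of `X` is in `A`) of unbounded fan-in; the hypotheses are the instances
over a universe `P` of finitely many first-order sentences (`H42/CS/Defs`: `Lit`, `Gate`; `H16/TP/Defs`: `Atom`,
`Ax`, `Circuit`). The rules are those of `H16/TP/Defs` with the addition rule `sum` for two sets.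

`Img C g a b` (`H16/TP/Defs`): the formula below the node `b` is the image of the formula below the node `a`
under the permutation `g` of the points, up to the order of the members of the gates; `Young χ`: the group of
the permutations of the points which preserve the colouring `χ`. `Built C X d a`: the formula below the node
`a` is obtained from variables and from formulas in `X` (of any depth, with any gates) by at most `d` levels of
conjunctions and negations. No symmetry of the circuit, of the lines or of the set of the lines is asked.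
-/

set_option autoImplicit false

namespace Pool.Agent.H63.TC

open Pool.Agent.H42.CS (Lit Gate)
open Pool.Agent.H16.TP (Atom Ax Circuit Img Young)

/-- The rules. A line is a set `Λ` of signed nodes, read as the disjunction of its members; it
follows in one step from the lines in `Pr`. The hypotheses are the instances over `P` of the axioms
in `T` (`hyp`). The rules for the symmetric gates:
* `cover`: for every number `c ≤ |X|` the line has a member `sym A X`, `c ∈ A`, or `¬ sym A X`,
  `c ∉ A`;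
* `unit`: `¬ x, sym A {x}` if `1 ∈ A`, and `x, sym A {x}` if `0 ∈ A`;
* `sum`: from `sym A₁ X₁` and `sym A₂ X₂`, `X₁` and `X₂` disjoint: `sym A' (X₁ ∪ X₂)`, if `c₁ + c₂ ∈ A'` for
  all `c₁ ∈ A₁`, `c₂ ∈ A₂`;
* `dist` (distribution): `F` is a family of disjoint sets of size at most `J`, `B j X` is the node
  `sym {j} X`, and `u j` says that the number of `X ∈ F` with exactly `j` true members is in `A j`
  (`j ≤ J`); from all `u j`: `sym A' (⋃ F)`, if `∑ j * t j ∈ A'` for all `t j ∈ A j` with
  `∑ t j = |F|`. -/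
inductive Step {S : Type} {ar : S → ℕ} {P : Type} (T : Set (Ax ar)) (C : Circuit ar P)
    (Pr : Set (Set (Lit C.N))) : Set (Lit C.N) → Prop
  | hyp {Λ : Set (Lit C.N)} {A : Ax ar} {v : Fin A.k → P} : A ∈ T →
      (∀ x ∈ A.inst v, ∃ a, C.gate a = .var x.1 ∧ ⟨a, x.2⟩ ∈ Λ) → Step T C Pr Λ
  | ident {Λ : Set (Lit C.N)} {a b : C.N} : C.gate a = C.gate b → ⟨a, true⟩ ∈ Λ →
      ⟨b, false⟩ ∈ Λ → Step T C Pr Λ
  | weak {Λ Δ : Set (Lit C.N)} : Δ ∈ Pr → Δ ⊆ Λ → Step T C Pr Λ
  | cut {Λ : Set (Lit C.N)} {a : C.N} : insert ⟨a, true⟩ Λ ∈ Pr → insert ⟨a, false⟩ Λ ∈ Pr →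
      Step T C Pr Λ
  | andI {Λ X : Set (Lit C.N)} {a : C.N} : C.gate a = .and X → ⟨a, true⟩ ∈ Λ →
      (∀ x ∈ X, insert x Λ ∈ Pr) → Step T C Pr Λ
  | andE {Λ X : Set (Lit C.N)} {a : C.N} : C.gate a = .and X → ⟨a, false⟩ ∈ Λ →
      Λ ∪ Lit.neg '' X ∈ Pr → Step T C Pr Λ
  | cover {Λ X : Set (Lit C.N)} : (∀ c ≤ X.ncard, ∃ (a : C.N) (A : Set ℕ) (b : Bool),
      C.gate a = .sym A X ∧ (c ∈ A ↔ b = true) ∧ ⟨a, b⟩ ∈ Λ) → Step T C Pr Λ
  | unit {Λ : Set (Lit C.N)} {a : C.N} {A : Set ℕ} {x : Lit C.N} : C.gate a = .sym A {x} →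
      ⟨a, true⟩ ∈ Λ → (1 ∈ A ∧ x.neg ∈ Λ) ∨ (0 ∈ A ∧ x ∈ Λ) → Step T C Pr Λ
  | sum {Λ X₁ X₂ : Set (Lit C.N)} {a b₁ b₂ : C.N} {A₁ A₂ A' : Set ℕ} :
      C.gate b₁ = .sym A₁ X₁ → C.gate b₂ = .sym A₂ X₂ → Disjoint X₁ X₂ →
      C.gate a = .sym A' (X₁ ∪ X₂) → (∀ c₁ ∈ A₁, ∀ c₂ ∈ A₂, c₁ + c₂ ∈ A') →
      ⟨b₁, false⟩ ∈ Λ → ⟨b₂, false⟩ ∈ Λ → ⟨a, true⟩ ∈ Λ → Step T C Pr Λ
  | dist {Λ : Set (Lit C.N)} {a : C.N} {F : Set (Set (Lit C.N))} {J : ℕ}
      {B : ℕ → Set (Lit C.N) → C.N} {u : ℕ → C.N} {A : ℕ → Set ℕ} {A' : Set ℕ} :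
      F.PairwiseDisjoint id → (∀ X ∈ F, X.ncard ≤ J) →
      (∀ j ≤ J, ∀ X ∈ F, C.gate (B j X) = .sym {j} X) →
      (∀ j ≤ J, C.gate (u j) = .sym (A j) ((fun X => ⟨B j X, true⟩) '' F)) →
      C.gate a = .sym A' (⋃₀ F) →
      (∀ t : ℕ → ℕ, (∀ j ≤ J, t j ∈ A j) → ∑ j ∈ Finset.range (J + 1), t j = F.ncard →
        ∑ j ∈ Finset.range (J + 1), j * t j ∈ A') →
      (∀ j ≤ J, ⟨u j, false⟩ ∈ Λ) → ⟨a, true⟩ ∈ Λ → Step T C Pr Λ

/-- A refutation of the axioms in `T` over the universe `P`: a circuit and a set of lines, each of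
which follows in one step from earlier ones; the empty line is among them. -/
structure Refutation {S : Type} {ar : S → ℕ} (T : Set (Ax ar)) (P : Type) where
  /-- the circuit -/
  C : Circuit ar P
  /-- the lines -/
  lines : Set (Set (Lit C.N))
  /-- the order of the lines -/
  order : Set (Lit C.N) → ℕ
  step : ∀ Λ ∈ lines, Step T C {Δ | Δ ∈ lines ∧ order Δ < order Λ} Λ
  empty_mem : ∅ ∈ lines

/-- The size of a refutation: the number of nodes of the circuit plus the number of lines. -/
noncomputable def Refutation.size {S : Type} {ar : S → ℕ} {T : Set (Ax ar)} {P : Type}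
    (R : Refutation T P) : ℕ :=
  Nat.card R.C.N + R.lines.ncard

/-- The formula below the node `a` is built in depth `d` from variables and from formulas in `X`. -/
def Built {S : Type} {ar : S → ℕ} {P : Type} (C : Circuit ar P) (X : Set C.N) : ℕ → C.N → Prop
  | 0, a => (∃ v, C.gate a = .var v) ∨ a ∈ X
  | d + 1, a => Built C X d a ∨ ∃ Y, C.gate a = .and Y ∧ ∀ y ∈ Y, Built C X d y.node

/-- The formulas which are fixed by all elements of a subgroup of index at most `B` of the group `Γ` of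
permutations of the points. -/
def Sym {S : Type} {ar : S → ℕ} {P : Type} (C : Circuit ar P) (B : ℕ)
    (Γ : Subgroup (Equiv.Perm P)) : Set C.N :=
  {a | ∃ H : Subgroup (Equiv.Perm P), H ≤ Γ ∧ H.relIndex Γ ≤ B ∧ ∀ g ∈ H, Img C g a a}

/-- The formulas which are fixed by all elements of a subgroup of index at most `B` of the group of all
permutations of the points that preserve some colouring of the points with `b` colours. -/
def SymC {S : Type} {ar : S → ℕ} {P : Type} (C : Circuit ar P) (B b : ℕ) : Set C.N :=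
  {a | ∃ χ : P → Fin b, a ∈ Sym C B (Young χ)}

end Pool.Agent.H63.TC
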