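import Pool.Agent.H63.TC.Tra
import Pool.Agent.H16.TP.Fin
import Pool.Agent.H6.AC.Lgc

/-!
# Symmetric formulas over the tuples

The formulas in `SymC C B b` are fixed by subgroups of the group of the sign cells whose spaces have at most
`B` elements (`sym_col`); the same for `Sym C B Γ` and the cells of tuples in the group `Γ` (`sym_grp`).
-/

set_option autoImplicit false

namespace Pool.Agent.H63.TC

open Pool.Agent.H79.CQ (Cells Vs Vs_top)
open Pool.Agent.H42.CS (Lit Gate)
open Pool.Agent.H16.TP (Atom Ax Circuit Young arm tup tup_injective sgnCells sgn_card tupCells ofC img_of)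

variable {Rel : ℕ → Type}

theorem sym_col {n b r B : ℕ} (hb : 1 ≤ b) (e : Fin r × Fin (b + 1) ↪ Fin n)
    {C : Circuit (arm Rel (b + 1)) (Fin n)} {a : C.N} (ha : a ∈ SymC C B b) :
    ∃ H : Subgroup (sgnCells (by omega) e).H, Nat.card (Vs (sgnCells (by omega) e).pr H) ≤ B ∧
      ∀ g ∈ H, H16.LE.Img (ofC C) (g : Equiv.Perm (Fin (b + 1) → Fin n)) a a := by
  classical
  obtain ⟨M, hM⟩ : ∃ M : Cells 2 (Fin (b + 1) → Fin n) r, M = sgnCells (by omega) e := ⟨_, rfl⟩
  rw [← hM]
  have hti := tup_injective (m := b + 1) (by omega) (P := Fin n)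
  obtain ⟨χ, H, hHY, hind, h2⟩ := ha
  refine ⟨(H.map (tup (b + 1))).subgroupOf M.H, ?_, ?_⟩
  · have h7 : Nat.card (Vs M.pr (((Young χ).map (tup (b + 1))).subgroupOf M.H)) ≤ 1 := by
      rw [hM]
      exact sgn_card (by omega) (by omega) e χ
    have h8 : (H.map (tup (b + 1))).subgroupOf M.H ≤ ((Young χ).map (tup (b + 1))).subgroupOf M.H :=
      Subgroup.comap_mono (Subgroup.map_mono hHY)
    have h9 : ((H.map (tup (b + 1))).subgroupOf M.H).relIndex
        (((Young χ).map (tup (b + 1))).subgroupOf M.H) ≤ B := by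
      refine le_trans ?_ hind
      rw [← Subgroup.relIndex_map_map_of_injective H (Young χ) hti]
      have h10 : ((H.map (tup (b + 1))).subgroupOf M.H).relIndex
          (((Young χ).map (tup (b + 1))).subgroupOf M.H) =
          (H.map (tup (b + 1))).relIndex
            ((((Young χ).map (tup (b + 1))).subgroupOf M.H).map M.H.subtype) :=
        Subgroup.relIndex_comap _ M.H.subtype _
      rw [h10]
      refine Subgroup.relIndex_le_of_le_right ?_ ?_
      · rw [Subgroup.subgroupOf_map_subtype]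
        exact inf_le_left
      · unfold Subgroup.relIndex
        exact Subgroup.index_ne_zero_of_finite
    exact (H16.LE.card_Vs_rel M.pr_mul h8).trans ((Nat.mul_le_mul h9 h7).trans (Nat.mul_one B).le)
  · rintro g ⟨g0, hg0, h3⟩
    have h6 := img_of (h2 g0 hg0)
    have h4 : (g : Equiv.Perm (Fin (b + 1) → Fin n)) = tup (b + 1) g0 := h3.symm
    rw [h4]
    exact h6

theorem sym_grp {n m r B p : ℕ} [hp : Fact p.Prime] (hm : 0 < m) (M : Cells p (Fin n) r)
    (Γ : Subgroup (Equiv.Perm (Fin n))) (hM : M.H ≤ Γ)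
    {C : Circuit (arm Rel m) (Fin n)} {a : C.N} (ha : a ∈ Sym C B Γ) :
    ∃ H : Subgroup (tupCells hm M).H, Nat.card (Vs (tupCells hm M).pr H) ≤ B ∧
      ∀ g ∈ H, H16.LE.Img (ofC C) (g : Equiv.Perm (Fin m → Fin n)) a a := by
  classical
  have hti := tup_injective (m := m) hm (P := Fin n)
  obtain ⟨H, h1, h2, h3⟩ := ha
  refine ⟨(H.map (tup m)).subgroupOf (tupCells hm M).H, ?_, ?_⟩
  · have h4 : ((H.map (tup m)).subgroupOf (tupCells hm M).H).index ≤ B := by
      refine le_trans ?_ h2
      show (H.map (tup m)).relIndex ((tup m).comp M.H.subtype).range ≤ _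
      rw [MonoidHom.range_comp, Subgroup.range_subtype, Subgroup.relIndex_map_map_of_injective H M.H hti]
      refine Subgroup.relIndex_le_of_le_right hM ?_
      unfold Subgroup.relIndex
      exact Subgroup.index_ne_zero_of_finite
    have h5 := H16.LE.card_Vs_rel (tupCells hm M).pr_mul
      (le_top : (H.map (tup m)).subgroupOf (tupCells hm M).H ≤ ⊤)
    rw [Subgroup.relIndex_top_right, Vs_top (tupCells hm M).pr_onto] at h5
    have h6 : Nat.card (⊥ : Submodule (ZMod p) (Fin r → ZMod p)) = 1 := Nat.card_unique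
    rw [h6, mul_one] at h5
    exact h5.trans h4
  · rintro g ⟨g0, hg0, h4⟩
    have h6 := img_of (h3 g0 hg0)
    have h5 : (g : Equiv.Perm (Fin m → Fin n)) = tup m g0 := h4.symm
    rw [h5]
    exact h6

/-- Built nodes are built from symmetric nodes and variables in the sense of `H6/AC/Lgc`. -/
theorem built_of {m : ℕ} {P : Type} {C : Circuit (arm Rel m) P} {X : Set C.N} :
    ∀ {d : ℕ} {a : C.N}, Built C X d a →
      H6.AC.BltN (ofC C) (X ∪ {a | ∃ v, (ofC C).gate a = .var v}) d a := by
  intro d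
  induction d with
  | zero =>
    rintro a (⟨v, hv⟩ | h)
    · right
      refine ⟨H16.TP.unfl v, ?_⟩
      show H16.TP.gv H16.TP.unfl (C.gate a) = _
      rw [hv]
      rfl
    · exact Or.inl h
  | succ d ih =>
    have key : ∀ {d : ℕ} {a : C.N}, H6.AC.BltN (ofC C) (X ∪ {a | ∃ v, (ofC C).gate a = .var v}) d a →
        H6.AC.BltN (ofC C) (X ∪ {a | ∃ v, (ofC C).gate a = .var v}) (d + 1) a := by
      intro d
      induction d with
      | zero => intro a h; exact Or.inl h
      | succ d ih =>
        rintro a (h | ⟨S, hS, h⟩)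
        · exact Or.inl h
        · exact Or.inr ⟨S, hS, fun x hx => ih (h x hx)⟩
    rintro a (h | ⟨Y, hY, h⟩)
    · exact key (ih h)
    · exact Or.inr ⟨Y, H16.TP.of_and hY, fun x hx => ih (h x hx)⟩

end Pool.Agent.H63.TC
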