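import Pool.Agent.H79.CQ.Low
import Pool.Agent.H63.AC.Defs

/-!
# A refutation has size at least two

As `H79/CQ/Lo1`, for the calculus with binary sums.
-/

set_option autoImplicit false

namespace Pool.Agent.H63.TC

open Pool.Agent.H42.CS (Ax Atom Gate Circuit)
open Pool.Agent.H79.CQ (Re Ins T T_ins)

private theorem finLit (N : Type) [Finite N] : Finite (H42.CS.Lit N) :=
  Finite.of_injective (fun x : H42.CS.Lit N => (x.node, x.pos)) fun x y h => by
    have h1 := Prod.mk.inj h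
    exact H42.CS.Lit.ext h1.1 h1.2

private theorem ins_ne {d : ℕ} {P : Type} [hP : Nonempty P] {Λ : Set (Atom (Re d) P × Bool)}
    (h : Ins Λ) : Λ.Nonempty := by
  obtain ⟨p⟩ := hP
  cases h with
  | f7 τ q => exact ⟨_, p, rfl⟩
  | z1 => exact ⟨_, p, rfl⟩
  | b1 => exact ⟨_, p, rfl⟩
  | er x => exact ⟨_, Set.mem_singleton _⟩
  | b4 x => exact ⟨_, Or.inl rfl⟩
  | tp a q u z y => exact ⟨_, Or.inl rfl⟩
  | tn a q u z y => exact ⟨_, Or.inl rfl⟩
  | m1 σ q u z y => exact ⟨_, Or.inl (Or.inr rfl)⟩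
  | m7 k q u z y' => exact ⟨_, Or.inl rfl⟩
  | g6 q u z => exact ⟨_, Or.inl (Or.inr (Or.inl rfl))⟩
  | _ => exact ⟨_, Set.mem_insert _ _⟩

private theorem no_step {d : ℕ} {P : Type} [Nonempty P] (C : Circuit (Re d) P)
    (hemp : IsEmpty C.N) (Pr : Set (Set (H42.CS.Lit C.N))) (hPr : ∀ Δ, Δ ∉ Pr)
    (Λ : Set (H42.CS.Lit C.N)) (h : AC.Step (T d) C Pr Λ) : False := by
  cases h with
  | @hyp A v hA h =>
    obtain ⟨x, hx⟩ := ins_ne (T_ins A hA v)
    obtain ⟨a, _⟩ := h x hx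
    exact hemp.false a
  | @ident a b h1 h2 h3 => exact hemp.false a
  | @weak Δ h1 h2 => exact hPr Δ h1
  | @cut a h1 h2 => exact hemp.false a
  | @andI S a h1 h2 h3 => exact hemp.false a
  | @andE S a h1 h2 h3 => exact hemp.false a
  | @cover S h1 =>
    obtain ⟨a, _⟩ := h1 0 (Nat.zero_le _)
    exact hemp.false a
  | @unit a A x h1 h2 h3 => exact hemp.false a
  | @sum S1 S2 a b1 b2 A1 A2 A' h1 h2 h3 h4 h5 h6 h7 h8 => exact hemp.false a
  | @dist a F J B u A A' h1 h2 h3 h4 h5 h6 h7 h8 => exact hemp.false a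

theorem size_ge_two {d : ℕ} {P : Type} [Nonempty P] (R : AC.Refutation (T d) P) :
    2 ≤ R.size := by
  have hfin : Finite R.C.N := R.C.fin
  have hfl := finLit R.C.N
  have h1 : 1 ≤ R.lines.ncard := by
    have h2 : 0 < R.lines.ncard := (Set.ncard_pos (Set.toFinite _)).2 ⟨∅, R.empty_mem⟩
    exact h2
  have h2 : 1 ≤ Nat.card R.C.N := by
    have hne : Nonempty R.C.N := by
      by_contra hemp
      rw [not_nonempty_iff] at hemp
      have hall : ∀ Δ : Set (H42.CS.Lit R.C.N), Δ = ∅ := by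
        intro Δ
        ext x
        exact isEmptyElim x.node
      refine no_step R.C hemp _ (fun Δ hΔ => ?_) ∅ (R.step ∅ R.empty_mem)
      have h3 : R.order Δ < R.order ∅ := hΔ.2
      rw [hall Δ] at h3
      exact lt_irrefl _ h3
    exact Nat.card_pos
  unfold AC.Refutation.size
  omega

end Pool.Agent.H63.TC
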