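import Pool.Agent.H63.TC.Up
import Pool.Agent.H63.TC.Sym
import Pool.Agent.H63.TC.Sz
import Pool.Agent.H6.AC.Co2
import Pool.Agent.H42.AC.Num

/-!
# Bounded depth over partially symmetric formulas

PROOF. The tuple version `TM (b + 1) (T 3)` of the axioms; its refutations over the points are the refutations
of `T 3` over the tuples (`ofR`). `sym_col`, `sym_grp`: the symmetric formulas have small spaces. `core2` (`H6/AC/Co2`) with
the numbers of `H42/AC/Num`.
-/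

set_option autoImplicit false

namespace Pool.Agent.H63.TC

open Pool.Agent.H79.CQ (Cells Vs T Re k8 T_finite T_lits exists_cells)
open Pool.Agent.H42.CS (Lit Gate)
open Pool.Agent.H16.TP (TM TM_finite TM_lits Ax Circuit Young sgnCells tupCells ofC)
open Pool.Agent.H6.AC (core2)

private theorem fin_num {C1 C dd r X : ℕ} {x : ℝ} (hC1 : 2 ≤ C1) (hC : 4 * C1 ≤ C) (hX : 2 ≤ X)
    (hx0 : 0 ≤ x) (hx : x ≤ 1 ∨ x ≤ 4 * r)
    (key : (2 : ℝ) ^ ((r : ℝ) ^ (1 / (C1 : ℝ) ^ (dd + 1)) / C1) ≤ X) :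
    (2 : ℝ) ^ (x ^ (1 / (C : ℝ) ^ (dd + 1)) / C) ≤ X := by
  have hXr : (2 : ℝ) ≤ X := by exact_mod_cast hX
  have hC1r : (2 : ℝ) ≤ C1 := by exact_mod_cast hC1
  have hCr : (4 * C1 : ℝ) ≤ C := by exact_mod_cast hC
  have hC0 : (0 : ℝ) < C := by linarith
  have hC10 : (0 : ℝ) < C1 := by linarith
  obtain ⟨e, he⟩ : ∃ e : ℝ, e = 1 / (C : ℝ) ^ (dd + 1) := ⟨_, rfl⟩
  obtain ⟨e1, he1⟩ : ∃ e1 : ℝ, e1 = 1 / (C1 : ℝ) ^ (dd + 1) := ⟨_, rfl⟩
  rw [← he1] at key
  rw [← he]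
  have he0 : 0 ≤ e := by
    rw [he]
    positivity
  have hee : e ≤ e1 := by
    rw [he, he1]
    apply one_div_le_one_div_of_le (by positivity)
    exact pow_le_pow_left₀ hC10.le (by linarith) _
  have he11 : e1 ≤ 1 := by
    rw [he1, div_le_one (by positivity)]
    exact one_le_pow₀ (by linarith)
  rcases le_or_gt x 1 with h1 | h1
  · have h2 : x ^ e ≤ 1 := Real.rpow_le_one hx0 h1 he0
    calc (2 : ℝ) ^ (x ^ e / C) ≤ (2 : ℝ) ^ (1 : ℝ) := by
          apply Real.rpow_le_rpow_of_exponent_le (by norm_num)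
          rw [div_le_one hC0]
          linarith
      _ = 2 := Real.rpow_one 2
      _ ≤ X := hXr
  · have hx4 : x ≤ 4 * r := by
      rcases hx with h | h
      · linarith
      · exact h
    refine le_trans ?_ key
    apply Real.rpow_le_rpow_of_exponent_le (by norm_num)
    have h2 : x ^ e ≤ x ^ e1 := Real.rpow_le_rpow_of_exponent_le h1.le hee
    have h3 : x ^ e1 ≤ (4 * r : ℝ) ^ e1 := Real.rpow_le_rpow hx0 hx4 (he0.trans hee)
    rw [Real.mul_rpow (by norm_num) (Nat.cast_nonneg r)] at h3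
    have h4 : (4 : ℝ) ^ e1 ≤ 4 := by
      have h5 := Real.rpow_le_rpow_of_exponent_le (x := (4 : ℝ)) (by norm_num) he11
      rwa [Real.rpow_one] at h5
    have h5 : (0 : ℝ) ≤ (r : ℝ) ^ e1 := by positivity
    have h6 : x ^ e ≤ 4 * (r : ℝ) ^ e1 := h2.trans (h3.trans (mul_le_mul_of_nonneg_right h4 h5))
    rw [div_le_div_iff₀ hC0 hC10]
    nlinarith

theorem main : ∃ C : ℕ, 0 < C ∧ ∀ b : ℕ, 1 ≤ b →
    ∃ (S : Type) (ar : S → ℕ) (T : Set (Ax ar)), T.Finite ∧ (∀ A ∈ T, A.lits.Finite ∧ A.ex.Finite) ∧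
      ∀ n : ℕ, 2 ≤ n →
        (∃ R : Refutation T (Fin n), R.size ≤ n ^ (C * b) ∧ ∀ a, R.C.rank a ≤ C) ∧
        (∀ (d B : ℕ) (R : Refutation T (Fin n)), 1 ≤ B →
          (∀ Λ ∈ R.lines, ∀ x ∈ Λ, Built R.C (SymC R.C B b) d x.node) →
          (2 : ℝ) ^ (((n : ℝ) / b) ^ (1 / (C : ℝ) ^ (d + 1)) / C) ≤ B * R.size) ∧
        ∀ (Γ : Subgroup (Equiv.Perm (Fin n))) (p h d B : ℕ) (R : Refutation T (Fin n)), p.Prime →
          p ^ h ∣ Nat.card Γ → 1 ≤ B →
          (∀ Λ ∈ R.lines, ∀ x ∈ Λ, Built R.C (Sym R.C B Γ) d x.node) →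
          (2 : ℝ) ^ (((h : ℝ) / Real.logb 2 n) ^ (1 / (C : ℝ) ^ (d + 1)) / C) ≤ B * R.size := by
  obtain ⟨C1, hC1, hnum⟩ := H42.AC.num (k8 3) 8 200 (by norm_num)
  obtain ⟨c2, hup⟩ := up 3
  obtain ⟨C, hC⟩ : ∃ C, C = 4 * C1 + 2 * c2 + 7 := ⟨_, rfl⟩
  refine ⟨C, by omega, fun b hb => ⟨_, _, TM (b + 1) (T 3), TM_finite (T_finite 3),
    TM_lits fun A hA => T_lits A hA, fun n hn => ⟨?_, ?_, ?_⟩⟩⟩
  · obtain ⟨R, hs, hr⟩ := hup (b + 1) n (by omega) hn
    refine ⟨R, hs.trans (Nat.pow_le_pow_right (by omega) ?_), fun a => ?_⟩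
    · have h2 : 2 * c2 ≤ C := by omega
      nlinarith
    · have := hr a
      omega
  · intro d B R hB hR
    have hne : Nonempty (Fin n) := ⟨⟨0, by omega⟩⟩
    obtain ⟨r, hr⟩ : ∃ r, r = n / (b + 1) := ⟨_, rfl⟩
    have hrn : r * (b + 1) ≤ n := by
      rw [hr]
      exact Nat.div_mul_le_self n (b + 1)
    have hnr : n < (r + 1) * (b + 1) := by
      have h2 := Nat.lt_mul_div_succ n (show 0 < b + 1 by omega)
      rwa [← hr, mul_comm] at h2
    let e : Fin r × Fin (b + 1) ↪ Fin n := finProdFinEquiv.toEmbedding.trans (Fin.castLEEmb hrn)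
    have hs2 : 2 ≤ R.size := size_ge_two (ofR R)
    obtain ⟨X, hX⟩ : ∃ X, X = B * R.size := ⟨_, rfl⟩
    have hX2 : 2 ≤ X := by
      rw [hX]
      exact hs2.trans (Nat.le_mul_of_pos_left _ hB)
    have key := hnum C1 le_rfl d r X hX2 (fun L t m h1 h2 h3 h4 h5 h6 h7 =>
      core2 (p := 2) (d := 3) (r := r) (L := L) le_rfl (by omega) (by omega)
        (sgnCells (by omega) e) (ofR R) (SymC R.C B b) B d t m
        (fun a ha => sym_col hb e ha) (fun Λ hΛ x hx => built_of (hR Λ hΛ x hx)) hB h3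
        (by rw [ofR_size, ← hX]; exact h4) h5 h6 (by simpa using h7))
    have hbr : (1 : ℝ) ≤ b := by exact_mod_cast hb
    have h9 := fin_num (C := C) (x := (n : ℝ) / b) hC1 (by omega) hX2 (by positivity) (by
      rcases Nat.eq_zero_or_pos r with h0 | h0
      · left
        rw [div_le_one (by linarith)]
        rw [h0] at hnr
        exact_mod_cast (by omega : n ≤ b)
      · right
        rw [div_le_iff₀ (by linarith)]
        have h4 : (n : ℝ) ≤ (r + 1) * (b + 1) := by exact_mod_cast hnr.le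
        have h5 : (1 : ℝ) ≤ r := by exact_mod_cast h0
        nlinarith) key
    rw [hX] at h9
    push_cast at h9
    exact h9
  · intro Γ p h d B R hp hdiv hB hR
    have : Fact p.Prime := ⟨hp⟩
    have hne : Nonempty (Fin n) := ⟨⟨0, by omega⟩⟩
    obtain ⟨r, M, hM, hh⟩ := exists_cells Γ h hdiv
    have hs2 : 2 ≤ R.size := size_ge_two (ofR R)
    obtain ⟨X, hX⟩ : ∃ X, X = B * R.size := ⟨_, rfl⟩
    have hX2 : 2 ≤ X := by
      rw [hX]
      exact hs2.trans (Nat.le_mul_of_pos_left _ hB)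
    have key := hnum C1 le_rfl d r X hX2 (fun L t m h1 h2 h3 h4 h5 h6 h7 =>
      core2 (p := p) (d := 3) (r := r) (L := L) le_rfl (by omega) (by omega)
        (tupCells (m := b + 1) (by omega) M) (ofR R) (Sym R.C B Γ) B d t m
        (fun a ha => sym_grp (by omega) M Γ hM ha) (fun Λ hΛ x hx => built_of (hR Λ hΛ x hx)) hB h3
        (by rw [ofR_size, ← hX]; exact h4) h5 h6 (by simpa using h7))
    have hl1 : 1 ≤ Real.logb 2 n := by
      rw [Real.le_logb_iff_rpow_le (by norm_num) (by exact_mod_cast (by omega : 0 < n)), Real.rpow_one]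
      exact_mod_cast hn
    have hl2 : (Nat.log 2 n : ℝ) ≤ Real.logb 2 n := by
      have h1 := Real.natLog_le_logb n 2
      exact_mod_cast h1
    have h9 := fin_num (C := C) (x := (h : ℝ) / Real.logb 2 n) hC1 (by omega) hX2 (by positivity) (by
      right
      rw [div_le_iff₀ (by linarith)]
      have h4 : (h : ℝ) ≤ r * Nat.log 2 n := by exact_mod_cast hh
      have h5 : (0 : ℝ) ≤ r := Nat.cast_nonneg r
      nlinarith) key
    rw [hX] at h9
    push_cast at h9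
    exact h9

end Pool.Agent.H63.TC
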