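import Pool.Agent.H6.AC.Clb

/-!
# The numbers

PROOF. `c := cc (dd + 1) 4`, `t := clog X + k clog (2 (r + 1))`, `m := (c c8 t) ^ c`. The hypothesis for
`L := 300 + C0 t (m + 1) m` gives `r ≤ 19 L ^ 3 ≤ (K c t) ^ E`, `E := 9 c`. With `y := r ^ (1 / (2 E))` and
`lx := log X`: `y ^ 2 ≤ K c t` and `t ≤ (2 + 5 k) E lx y`, so `y ≤ 9 K (2 + 5 k) c ^ 2 lx`.
-/

set_option autoImplicit false

namespace Pool.Agent.H63.TC

open Pool.Agent.H6.AC (cc)

private theorem num_nat (k c8 C0 : ℕ) {dd r X : ℕ} (hX : 2 ≤ X)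
    (hyp : ∀ L t m : ℕ, 300 ≤ L → 19 * L ^ 3 ≤ r → 1 ≤ t → X ≤ 2 ^ t → (2 * (r + 1)) ^ k ≤ 2 ^ t →
      (cc (dd + 1) 4 * (c8 * t)) ^ cc (dd + 1) 4 ≤ m → C0 * t * ((m + 1) * m) ≤ L → False) :
    r ≤ (19 * (300 + 2 * C0) ^ 3 * (c8 + 1) * (cc (dd + 1) 4 *
      (Nat.clog 2 X + k * Nat.clog 2 (2 * (r + 1))))) ^ (9 * cc (dd + 1) 4) := by
  have hc1 : 1 ≤ cc (dd + 1) 4 := by
    unfold cc
    exact Nat.mul_pos (by norm_num) (by positivity)
  obtain ⟨c, hc⟩ : ∃ c, c = cc (dd + 1) 4 := ⟨_, rfl⟩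
  rw [← hc] at hyp hc1 ⊢
  obtain ⟨t, ht⟩ : ∃ t, t = Nat.clog 2 X + k * Nat.clog 2 (2 * (r + 1)) := ⟨_, rfl⟩
  rw [← ht]
  have ht1 : 1 ≤ t := by
    have h1 := Nat.clog_pos (by norm_num : 1 < 2) hX
    omega
  have h1 : X ≤ 2 ^ t :=
    (Nat.le_pow_clog (by norm_num) X).trans (Nat.pow_le_pow_right (by norm_num) (by omega))
  have h2 : (2 * (r + 1)) ^ k ≤ 2 ^ t := by
    calc (2 * (r + 1)) ^ k ≤ (2 ^ Nat.clog 2 (2 * (r + 1))) ^ k :=
          Nat.pow_le_pow_left (Nat.le_pow_clog (by norm_num) _) _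
      _ = 2 ^ (k * Nat.clog 2 (2 * (r + 1))) := by rw [← pow_mul, mul_comm]
      _ ≤ 2 ^ t := Nat.pow_le_pow_right (by norm_num) (by omega)
  obtain ⟨m, hm⟩ : ∃ m, m = (c * (c8 * t)) ^ c := ⟨_, rfl⟩
  have h3 : r ≤ 19 * (300 + C0 * t * ((m + 1) * m)) ^ 3 := by
    by_contra h
    push Not at h
    exact hyp (300 + C0 * t * ((m + 1) * m)) t m (by omega) h.le ht1 h1 h2 hm.symm.le (by omega)
  obtain ⟨s, hs⟩ : ∃ s, s = c * ((c8 + 1) * t) := ⟨_, rfl⟩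
  have hts : t ≤ s := by
    rw [hs]
    calc t = 1 * (1 * t) := by ring
      _ ≤ c * ((c8 + 1) * t) := Nat.mul_le_mul hc1 (Nat.mul_le_mul_right _ (by omega))
  have hs1 : 1 ≤ s := ht1.trans hts
  have hms : m ≤ s ^ c := by
    rw [hm, hs]
    exact Nat.pow_le_pow_left (Nat.mul_le_mul_left _ (Nat.mul_le_mul_right _ (by omega))) _
  have hsc : 1 ≤ s ^ c := Nat.one_le_pow _ _ hs1
  have h4 : 300 + C0 * t * ((m + 1) * m) ≤ (300 + 2 * C0) * s ^ (2 * c + 1) := by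
    have h5 : C0 * t * ((m + 1) * m) ≤ C0 * s * ((2 * s ^ c) * s ^ c) :=
      Nat.mul_le_mul (Nat.mul_le_mul_left _ hts) (Nat.mul_le_mul (by omega) hms)
    have h6 : C0 * s * ((2 * s ^ c) * s ^ c) = 2 * C0 * s ^ (2 * c + 1) := by
      rw [show 2 * c + 1 = c + c + 1 by ring, pow_succ, pow_add]
      ring
    have h7 : 1 ≤ s ^ (2 * c + 1) := Nat.one_le_pow _ _ hs1
    calc 300 + C0 * t * ((m + 1) * m) ≤ 300 * s ^ (2 * c + 1) + 2 * C0 * s ^ (2 * c + 1) := by omega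
      _ = (300 + 2 * C0) * s ^ (2 * c + 1) := by ring
  obtain ⟨K, hK⟩ : ∃ K, K = 19 * (300 + 2 * C0) ^ 3 := ⟨_, rfl⟩
  have hK1 : 1 ≤ K := by
    rw [hK]
    exact Nat.mul_pos (by norm_num) (by positivity)
  rw [← hK]
  have e1 : K * (c8 + 1) * (c * t) = K * s := by
    rw [hs]
    ring
  rw [e1]
  calc r ≤ 19 * (300 + C0 * t * ((m + 1) * m)) ^ 3 := h3
    _ ≤ 19 * ((300 + 2 * C0) * s ^ (2 * c + 1)) ^ 3 :=
        Nat.mul_le_mul_left _ (Nat.pow_le_pow_left h4 3)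
    _ = K * s ^ (3 * (2 * c + 1)) := by
        rw [hK, mul_pow, ← pow_mul, mul_comm (2 * c + 1) 3]
        ring
    _ ≤ K ^ (9 * c) * s ^ (9 * c) :=
        Nat.mul_le_mul (Nat.le_self_pow (by omega) K) (Nat.pow_le_pow_right hs1 (by omega))
    _ = (K * s) ^ (9 * c) := (mul_pow _ _ _).symm

private theorem cc_bound (dd : ℕ) : 36 * cc (dd + 1) 4 ^ 2 ≤ (2 ^ 42) ^ (dd + 1) := by
  unfold cc
  have e1 : (256 : ℕ) ^ (dd + 1 + 1) = 2 ^ (8 * (dd + 2)) := by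
    rw [show (256 : ℕ) = 2 ^ 8 by norm_num, ← pow_mul]
  rw [e1, ← pow_mul]
  calc 36 * ((4 + 1) * 2 ^ (8 * (dd + 2))) ^ 2 = 900 * 2 ^ (8 * (dd + 2) * 2) := by
        rw [mul_pow, ← pow_mul]
        ring
    _ ≤ 2 ^ 10 * 2 ^ (8 * (dd + 2) * 2) := Nat.mul_le_mul_right _ (by norm_num)
    _ = 2 ^ (10 + 8 * (dd + 2) * 2) := by rw [pow_add]
    _ ≤ 2 ^ (42 * (dd + 1)) := Nat.pow_le_pow_right (by norm_num) (by omega)

private theorem logb_le_self {y : ℝ} (hy : 0 < y) : Real.logb 2 y ≤ y := by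
  rw [Real.logb_le_iff_le_rpow (by norm_num) hy]
  have h1 : Real.log 2 * y + 1 ≤ (2 : ℝ) ^ y := by
    rw [Real.rpow_def_of_pos (by norm_num)]
    exact Real.add_one_le_exp _
  have h2 := Real.log_two_gt_d9
  rcases le_or_gt y 1 with h | h
  · nlinarith
  · have h3 : (y : ℝ) ≤ (2 : ℝ) ^ y := by
      have h4 : 1 + (y - 1) ≤ (2 : ℝ) ^ y := by
        have h5 : (2 : ℝ) ^ y = 2 * (2 : ℝ) ^ (y - 1) := by
          rw [Real.rpow_sub_one (by norm_num)]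
          ring
        have h6 : Real.log 2 * (y - 1) + 1 ≤ (2 : ℝ) ^ (y - 1) := by
          rw [Real.rpow_def_of_pos (by norm_num)]
          exact Real.add_one_le_exp _
        rw [h5]
        nlinarith
      linarith
    exact h3

theorem num (k c8 C0 : ℕ) : ∃ C : ℕ, 2 ≤ C ∧ ∀ dd r X : ℕ, 2 ≤ X →
    (∀ L t m : ℕ, 300 ≤ L → 19 * L ^ 3 ≤ r → 1 ≤ t → X ≤ 2 ^ t → (2 * (r + 1)) ^ k ≤ 2 ^ t →
      (cc (dd + 1) 4 * (c8 * t)) ^ cc (dd + 1) 4 ≤ m → C0 * t * ((m + 1) * m) ≤ L → False) →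
    (2 : ℝ) ^ ((r : ℝ) ^ (1 / (C : ℝ) ^ (dd + 1)) / C) ≤ X := by
  obtain ⟨K, hK⟩ : ∃ K, K = 19 * (300 + 2 * C0) ^ 3 * (c8 + 1) := ⟨_, rfl⟩
  have hK1 : 1 ≤ K := by
    rw [hK]
    exact Nat.mul_pos (Nat.mul_pos (by norm_num) (by positivity)) (by omega)
  obtain ⟨C, hC⟩ : ∃ C, C = 2 ^ 42 + 18 * K * (2 + 5 * k) := ⟨_, rfl⟩
  refine ⟨C, by omega, ?_⟩
  intro dd r X hX hyp
  have h1 := num_nat k c8 C0 hX hyp
  rw [← hK] at h1
  have h36 := cc_bound dd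
  have hc1 : 1 ≤ cc (dd + 1) 4 := by
    unfold cc
    exact Nat.mul_pos (by norm_num) (by positivity)
  obtain ⟨c, hc⟩ : ∃ c, c = cc (dd + 1) 4 := ⟨_, rfl⟩
  rw [← hc] at h1 h36 hc1
  clear hyp hc
  have hXr : (2 : ℝ) ≤ X := by exact_mod_cast hX
  have hX0 : (0 : ℝ) < X := by linarith
  have hC42 : 2 ^ 42 ≤ C := by omega
  have hC0' : (0 : ℝ) < C := by exact_mod_cast (by omega : 0 < C)
  have hCp : (0 : ℝ) < (C : ℝ) ^ (dd + 1) := by positivity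
  obtain ⟨lx, hlx⟩ : ∃ lx : ℝ, lx = Real.logb 2 X := ⟨_, rfl⟩
  have hl1 : 1 ≤ lx := by
    rw [hlx, Real.le_logb_iff_rpow_le (by norm_num) hX0, Real.rpow_one]
    exact hXr
  have hfin : (r : ℝ) ^ (1 / (C : ℝ) ^ (dd + 1)) ≤ C * lx → (2 : ℝ) ^ ((r : ℝ) ^ (1 / (C : ℝ) ^ (dd + 1)) / C) ≤ X := by
    intro h
    calc (2 : ℝ) ^ ((r : ℝ) ^ (1 / (C : ℝ) ^ (dd + 1)) / C) ≤ 2 ^ lx := by
          apply Real.rpow_le_rpow_of_exponent_le (by norm_num)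
          rw [div_le_iff₀ hC0']
          linarith
      _ = X := by rw [hlx, Real.rpow_logb (by norm_num) (by norm_num) hX0]
  apply hfin
  clear hfin
  rcases Nat.eq_zero_or_pos r with h0 | hr1
  · rw [h0, Nat.cast_zero, Real.zero_rpow (by positivity)]
    positivity
  have hr1' : (1 : ℝ) ≤ r := by exact_mod_cast hr1
  have hr0 : (0 : ℝ) < r := by linarith
  have hcr : (1 : ℝ) ≤ c := by exact_mod_cast hc1
  have hKr : (1 : ℝ) ≤ K := by exact_mod_cast hK1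
  obtain ⟨y, hy⟩ : ∃ y : ℝ, y = (r : ℝ) ^ (1 / (18 * (c : ℝ))) := ⟨_, rfl⟩
  have hy1 : 1 ≤ y := by
    rw [hy]
    exact Real.one_le_rpow hr1' (by positivity)
  have hy0 : 0 < y := by linarith
  have hyr : y ^ (18 * c) = r := by
    rw [hy, ← Real.rpow_natCast, ← Real.rpow_mul hr0.le]
    push_cast
    rw [one_div_mul_cancel (by positivity), Real.rpow_one]
  obtain ⟨t, ht⟩ : ∃ t, t = Nat.clog 2 X + k * Nat.clog 2 (2 * (r + 1)) := ⟨_, rfl⟩
  rw [← ht] at h1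
  have h2 : y ^ 2 ≤ K * (c * t) := by
    have h3 : (y ^ 2) ^ (9 * c) ≤ ((K : ℝ) * (c * t)) ^ (9 * c) := by
      rw [← pow_mul, show 2 * (9 * c) = 18 * c by ring, hyr]
      exact_mod_cast h1
    exact le_of_pow_le_pow_left₀ (by omega) (by positivity) h3
  -- the bound for `t`
  have hcl : ∀ a : ℕ, 1 ≤ a → (Nat.clog 2 a : ℝ) ≤ Real.logb 2 a + 1 := by
    intro a ha
    have h4 := Real.natCeil_logb_natCast 2 a
    have h5 : (0 : ℝ) ≤ Real.logb 2 a := Real.logb_nonneg (by norm_num) (by exact_mod_cast ha)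
    have h6 := Nat.ceil_lt_add_one h5
    have h7 : (⌈Real.logb ((2 : ℕ) : ℝ) a⌉₊ : ℝ) = Nat.clog 2 a := by rw [h4]
    push_cast at h7
    rw [h7] at h6
    exact h6.le
  have ht2 : (t : ℝ) ≤ (2 + 5 * k) * (9 * c) * lx * y := by
    have h4 := hcl X (by omega)
    rw [← hlx] at h4
    have h5 := hcl (2 * (r + 1)) (by omega)
    have h6 : Real.logb 2 ((2 * (r + 1) : ℕ) : ℝ) ≤ 2 + 18 * c * y := by
      have h7 : (((2 * (r + 1) : ℕ)) : ℝ) ≤ 4 * r := by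
        push_cast
        linarith
      have h8 : Real.logb 2 ((2 * (r + 1) : ℕ) : ℝ) ≤ Real.logb 2 (4 * r) :=
        Real.logb_le_logb_of_le (by norm_num) (by positivity) h7
      rw [Real.logb_mul (by norm_num) hr0.ne', show (4 : ℝ) = 2 ^ 2 by norm_num, Real.logb_pow,
        Real.logb_self_eq_one (by norm_num)] at h8
      have h9 : Real.logb 2 (r : ℝ) = 18 * c * Real.logb 2 y := by
        rw [← hyr, Real.logb_pow]
        push_cast
        ring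
      have h10 := logb_le_self hy0
      have h11 : 18 * (c : ℝ) * Real.logb 2 y ≤ 18 * c * y :=
        mul_le_mul_of_nonneg_left h10 (by positivity)
      push_cast at h8 ⊢
      linarith
    have h7 : (t : ℝ) ≤ (lx + 1) + k * (3 + 18 * c * y) := by
      rw [ht]
      push_cast
      have h8 : (k : ℝ) * (Nat.clog 2 (2 * (r + 1)) : ℝ) ≤ k * (3 + 18 * c * y) :=
        mul_le_mul_of_nonneg_left (by linarith) (Nat.cast_nonneg k)
      linarith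
    have hcy : 1 ≤ (c : ℝ) * y := by nlinarith
    have h8 : lx + 1 ≤ 2 * (9 * c) * lx * y := by
      have h9 : lx ≤ lx * (c * y) := le_mul_of_one_le_right (by linarith) hcy
      nlinarith
    have h9 : 3 + 18 * (c : ℝ) * y ≤ 5 * (9 * c) * lx * y := by
      have h10 : (c : ℝ) * y ≤ lx * (c * y) := le_mul_of_one_le_left (by positivity) hl1
      nlinarith
    have h10 : (k : ℝ) * (3 + 18 * c * y) ≤ k * (5 * (9 * c) * lx * y) :=
      mul_le_mul_of_nonneg_left h9 (Nat.cast_nonneg k)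
    calc (t : ℝ) ≤ (lx + 1) + k * (3 + 18 * c * y) := h7
      _ ≤ 2 * (9 * c) * lx * y + k * (5 * (9 * c) * lx * y) := by linarith
      _ = (2 + 5 * k) * (9 * c) * lx * y := by ring
  obtain ⟨A, hA⟩ : ∃ A : ℝ, A = 9 * K * (2 + 5 * k) := ⟨_, rfl⟩
  have hk0 : (0 : ℝ) ≤ k := Nat.cast_nonneg k
  have hA1 : 1 ≤ A := by
    rw [hA]
    nlinarith
  have hyb : y ≤ A * lx * (c : ℝ) ^ 2 := by
    have h3 : y * y ≤ (A * lx * (c : ℝ) ^ 2) * y := by
      calc y * y = y ^ 2 := by ring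
        _ ≤ K * (c * t) := h2
        _ ≤ K * (c * ((2 + 5 * k) * (9 * c) * lx * y)) := by
            apply mul_le_mul_of_nonneg_left _ (by positivity)
            exact mul_le_mul_of_nonneg_left ht2 (by positivity)
        _ = (A * lx * (c : ℝ) ^ 2) * y := by
            rw [hA]
            ring
    exact le_of_mul_le_mul_right h3 hy0
  -- the exponent
  obtain ⟨q, hq⟩ : ∃ q : ℝ, q = 18 * c / (C : ℝ) ^ (dd + 1) := ⟨_, rfl⟩
  have hq0 : 0 ≤ q := by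
    rw [hq]
    positivity
  have h36r : 36 * (c : ℝ) ^ 2 ≤ (C : ℝ) ^ (dd + 1) := by
    have h3 : 36 * c ^ 2 ≤ C ^ (dd + 1) := h36.trans (Nat.pow_le_pow_left hC42 _)
    exact_mod_cast h3
  have hq2 : 2 * c * q ≤ 1 := by
    rw [hq, ← mul_div_assoc, div_le_one hCp]
    nlinarith
  have hq1 : q ≤ 1 := by nlinarith
  have hre : (r : ℝ) ^ (1 / (C : ℝ) ^ (dd + 1)) = y ^ q := by
    rw [hy, ← Real.rpow_mul hr0.le, hq]
    congr 1
    field_simp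
  rw [hre]
  have hAl : 1 ≤ A * lx := by nlinarith
  have h5 : ((c : ℝ) ^ 2) ^ q ≤ 2 := by
    have h6 : (c : ℝ) ≤ 2 ^ c := by exact_mod_cast Nat.lt_two_pow_self.le
    have h7 : (c : ℝ) ^ 2 ≤ (2 : ℝ) ^ ((2 * c : ℕ) : ℝ) := by
      rw [Real.rpow_natCast, mul_comm, pow_mul]
      exact pow_le_pow_left₀ (by positivity) h6 2
    calc ((c : ℝ) ^ 2) ^ q ≤ ((2 : ℝ) ^ ((2 * c : ℕ) : ℝ)) ^ q :=
          Real.rpow_le_rpow (by positivity) h7 hq0
      _ = (2 : ℝ) ^ (2 * c * q) := by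
          rw [← Real.rpow_mul (by norm_num)]
          push_cast
          rfl
      _ ≤ (2 : ℝ) ^ (1 : ℝ) := Real.rpow_le_rpow_of_exponent_le (by norm_num) hq2
      _ = 2 := Real.rpow_one 2
  calc y ^ q ≤ (A * lx * (c : ℝ) ^ 2) ^ q := Real.rpow_le_rpow hy0.le hyb hq0
    _ = (A * lx) ^ q * ((c : ℝ) ^ 2) ^ q := Real.mul_rpow (by positivity) (by positivity)
    _ ≤ (A * lx) * 2 := by
        apply mul_le_mul _ h5 (by positivity) (by positivity)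
        calc (A * lx) ^ q ≤ (A * lx) ^ (1 : ℝ) := Real.rpow_le_rpow_of_exponent_le hAl hq1
          _ = A * lx := Real.rpow_one _
    _ ≤ C * lx := by
        have h6 : (C : ℝ) = 2 ^ 42 + 18 * K * (2 + 5 * k) := by
          rw [hC]
          push_cast
          ring
        have h7 : (2 ^ 42 + 18 * K * (2 + 5 * k) : ℝ) * lx = 2 ^ 42 * lx + A * lx * 2 := by
          rw [hA]
          ring
        have h8 : (0 : ℝ) ≤ 2 ^ 42 * lx := by positivity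
        rw [h6, h7]
        linarith

end Pool.Agent.H63.TC
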