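import Pool.Agent.H16.TP.Tra
import Pool.Agent.H63.TC.Defs
import Pool.Agent.H63.AC.Defs

/-!
# Refutations of the tuple version are refutations over the tuples (binary sums)

Port of `H16/TP/Tra` for the calculus with binary sums.
-/

set_option autoImplicit false

namespace Pool.Agent.H63.TC

open Pool.Agent.H42.CS (Lit Gate)
open Pool.Agent.H16.TP (Atom Ax Circuit Young arm fl unfl Tm TM Tm_inst gv gv_and gv_sym toC ofC to_and to_sym
  of_and of_sym unfl_fl)

variable {Rel : ℕ → Type} {m : ℕ} {P : Type}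

theorem to_step {P' : Type} {f : P' → Fin m → P} (hf : Function.Surjective f)
    {T : Set (H42.CS.Ax Rel)} {C : H42.CS.Circuit Rel P'}
    {Pr : Set (Set (Lit C.N))} {Λ : Set (Lit C.N)} (h : AC.Step T C Pr Λ) :
    Step (TM m T) (toC f C) Pr Λ := by
  cases h with
  | @hyp A v hA H =>
    refine Step.hyp (A := Tm m A) (v := fun t : Fin (A.k * m) =>
      f (v (finProdFinEquiv.symm t).1) (finProdFinEquiv.symm t).2) ⟨A, hA, rfl⟩ fun x hx => ?_
    have hx' := (Set.ext_iff.1 (Tm_inst A _) x).1 hx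
    simp only [Equiv.symm_apply_apply] at hx'
    obtain ⟨y, ⟨l, hl, rfl⟩ | ⟨l, hl, y', rfl⟩, rfl⟩ := hx'
    · obtain ⟨a, h1, h2⟩ := H _ (Or.inl ⟨l, hl, rfl⟩)
      refine ⟨a, ?_, h2⟩
      show gv (fl f) (C.gate a) = _
      rw [h1]
      rfl
    · obtain ⟨y0, rfl⟩ := hf y'
      obtain ⟨a, h1, h2⟩ := H _ (Or.inr ⟨l, hl, y0, rfl⟩)
      refine ⟨a, ?_, h2⟩
      show gv (fl f) (C.gate a) = _
      rw [h1]
      have h3 : (fun z : Fin (A.k + 1) => f ((Fin.snoc v y0 : Fin (A.k + 1) → P') z)) =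
          (Fin.snoc (fun i j => f (v i) j) (f y0) : Fin (A.k + 1) → Fin m → P) :=
        Fin.comp_snoc f v y0
      show _ = Gate.var (fl (fun x => x) (⟨l.1, l.2.1, fun i =>
        (Fin.snoc (fun i j => f (v i) j) (f y0) : Fin (A.k + 1) → Fin m → P) (l.2.2 i)⟩ :
          H42.CS.Atom Rel (Fin m → P)))
      rw [← h3]
      rfl
  | @ident a b h1 h2 h3 => exact Step.ident (C := toC f C) (congrArg (gv (fl f)) h1) h2 h3
  | weak h1 h2 => exact Step.weak (C := toC f C) h1 h2
  | @cut a h1 h2 => exact Step.cut (C := toC f C) (a := a) h1 h2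
  | @andI S a h1 h2 h3 => exact Step.andI (C := toC f C) (X := S) (a := a) (to_and h1) h2 h3
  | @andE S a h1 h2 h3 => exact Step.andE (C := toC f C) (X := S) (a := a) (to_and h1) h2 h3
  | @cover S H =>
    refine Step.cover (C := toC f C) (X := S) fun c hc => ?_
    obtain ⟨a, A, b, h1, h2, h3⟩ := H c hc
    exact ⟨a, A, b, to_sym h1, h2, h3⟩
  | @unit a A x h1 h2 h3 => exact Step.unit (C := toC f C) (a := a) (A := A) (x := x) (to_sym h1) h2 h3
  | @sum S1 S2 a b1 b2 A1 A2 A' h1 h2 h3 h4 h5 h6 h7 h8 =>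
    exact Step.sum (C := toC f C) (a := a) (b₁ := b1) (b₂ := b2) (to_sym h1) (to_sym h2) h3 (to_sym h4)
      h5 h6 h7 h8
  | @dist a F J B u A A' h1 h2 h3 h4 h5 h6 h7 h8 =>
    exact Step.dist (C := toC f C) (a := a) (F := F) (J := J) (B := B) (u := u) (A := A) (A' := A') h1 h2
      (fun j hj X hX => to_sym (h3 j hj X hX)) (fun j hj => to_sym (h4 j hj)) (to_sym h5) h6 h7 h8

theorem of_step {T : Set (H42.CS.Ax Rel)} {C : Circuit (arm Rel m) P}
    {Pr : Set (Set (Lit C.N))} {Λ : Set (Lit C.N)} (h : Step (TM m T) C Pr Λ) :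
    AC.Step T (ofC C) Pr Λ := by
  cases h with
  | @hyp A' v hA H =>
    obtain ⟨A, hA, rfl⟩ := hA
    refine AC.Step.hyp (C := ofC C) (A := A) (v := fun i j => v (finProdFinEquiv (i, j))) hA
      fun x hx => ?_
    have h0 : ((fl (fun x => x) x.1, x.2) : Atom (arm Rel m) P × Bool) ∈ (Tm m A).inst v := by
      rw [Tm_inst]
      exact ⟨x, hx, rfl⟩
    obtain ⟨a, h1, h2⟩ := H _ h0
    refine ⟨a, ?_, h2⟩
    show gv unfl (C.gate a) = _
    rw [h1]
    exact congrArg Gate.var (unfl_fl x.1)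
  | @ident a b h1 h2 h3 => exact AC.Step.ident (C := ofC C) (congrArg (gv unfl) h1) h2 h3
  | weak h1 h2 => exact AC.Step.weak (C := ofC C) h1 h2
  | @cut a h1 h2 => exact AC.Step.cut (C := ofC C) (a := a) h1 h2
  | @andI S a h1 h2 h3 => exact AC.Step.andI (C := ofC C) (S := S) (a := a) (of_and h1) h2 h3
  | @andE S a h1 h2 h3 => exact AC.Step.andE (C := ofC C) (S := S) (a := a) (of_and h1) h2 h3
  | @cover S H =>
    refine AC.Step.cover (C := ofC C) (S := S) fun c hc => ?_
    obtain ⟨a, A, b, h1, h2, h3⟩ := H c hc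
    exact ⟨a, A, b, of_sym h1, h2, h3⟩
  | @unit a A x h1 h2 h3 =>
    exact AC.Step.unit (C := ofC C) (a := a) (A := A) (x := x) (of_sym h1) h2 h3
  | @sum S1 S2 a b1 b2 A1 A2 A' h1 h2 h3 h4 h5 h6 h7 h8 =>
    exact AC.Step.sum (C := ofC C) (a := a) (b₁ := b1) (b₂ := b2) (of_sym h1) (of_sym h2) h3 (of_sym h4)
      h5 h6 h7 h8
  | @dist a F J B u A A' h1 h2 h3 h4 h5 h6 h7 h8 =>
    exact AC.Step.dist (C := ofC C) (a := a) (F := F) (J := J) (B := B) (u := u) (A := A) (A' := A') h1 h2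
      (fun j hj X hX => of_sym (h3 j hj X hX)) (fun j hj => of_sym (h4 j hj)) (of_sym h5) h6 h7 h8

/-- The refutation over `P`. -/
def toR {P' : Type} {f : P' → Fin m → P} (hf : Function.Surjective f) {T : Set (H42.CS.Ax Rel)}
    (R : AC.Refutation T P') : Refutation (TM m T) P where
  C := toC f R.C
  lines := R.lines
  order := R.order
  step := fun Λ hΛ => to_step hf (R.step Λ hΛ)
  empty_mem := R.empty_mem

/-- The refutation over `Fin m → P`. -/
def ofR {T : Set (H42.CS.Ax Rel)} (R : Refutation (TM m T) P) : AC.Refutation T (Fin m → P) where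
  C := ofC R.C
  lines := R.lines
  order := R.order
  step := fun Λ hΛ => of_step (R.step Λ hΛ)
  empty_mem := R.empty_mem

theorem toR_size {P' : Type} {f : P' → Fin m → P} (hf : Function.Surjective f) {T : Set (H42.CS.Ax Rel)}
    (R : AC.Refutation T P') : (toR hf R).size = R.size := rfl

theorem toR_rank {P' : Type} {f : P' → Fin m → P} (hf : Function.Surjective f) {T : Set (H42.CS.Ax Rel)}
    (R : AC.Refutation T P') (a : R.C.N) : (toR hf R).C.rank a = R.C.rank a := rfl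

theorem ofR_size {T : Set (H42.CS.Ax Rel)} (R : Refutation (TM m T) P) : (ofR R).size = R.size := rfl

end Pool.Agent.H63.TC
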