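import Pool.Agent.H63.TC.Tra
import Pool.Agent.H46.AC.Upb

/-!
# The upper bound for the tuple version
-/

set_option autoImplicit false

namespace Pool.Agent.H63.TC

open Pool.Agent.H16.TP (TM)
open Pool.Agent.H79.CQ (T)

/-- **Upper bound.** -/
theorem up (d : ℕ) : ∃ c : ℕ, ∀ m n : ℕ, 0 < m → 2 ≤ n →
    ∃ R : Refutation (TM m (T d)) (Fin n), R.size ≤ n ^ (c * m) ∧ ∀ a, R.C.rank a ≤ 7 := by
  obtain ⟨c, hc⟩ := H46.AC.upper_bin d
  refine ⟨c, fun m n hm hn => ?_⟩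
  obtain ⟨R, h1, h2⟩ := hc (n ^ m) (hn.trans (Nat.le_self_pow hm.ne' n))
  refine ⟨toR (f := finFunctionFinEquiv.symm) finFunctionFinEquiv.symm.surjective R, ?_, h2⟩
  rw [toR_size, mul_comm, pow_mul]
  exact h1

end Pool.Agent.H63.TC
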